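import Pool.Agent.H624.LD.Final
import Pool.Agent.H736.LD.EX
import Pool.Graph.R_pool_sql_team_seeded_620a6dc7.Helper9CH.CloneMA
import Pool.Graph.R_pool_sql_team_seeded_620a6dc7.Helper9CH.Two

/-!
# MP_3844f5_an : the measures `μ` for which `L¹(μ)` is isomorphic to a dual Banach space

A set of finite positive measure is `κ`-thick if it has no atoms and `L¹(μ|F)`
has density character at least `κ` for each of its measurable subsets `F` of positive measure.  The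
condition at `κ`: there are no `κ`-thick sets, or at least `2 ^ κ` sets of finite measure are
needed to meet all of them.  The conditions at all infinite `κ` are sufficient, those at all
infinite `κ` other than `ℵ₁` are necessary, and the role of `ℵ₁` is not decided by ZFC: it is
decided in one way by the continuum hypothesis and in the other way by Martin's axiom for `ℵ₁` dense
sets, both of which can be forced over every ground model.

The forcing languages used here are the ones of `Pool.Agent.Helper292.ForceCH` and of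
`Pool.Agent.Helper669.Forcing` (they only differ in notation): a sentence is represented by the set
of the conditions which force it, with the usual clauses for the connectives. The sentence
`MartinHolds P Om1` is the translation into this language of `MartinFor Om1`.
-/

open MeasureTheory Set
open scoped ENNReal

noncomputable section

namespace Pool.Agent.Results.MP_3844f5_an.AllMeasures

/-- `A` is an atom of `μ`. -/
def Atom.{u} {Ω : Type u} [MeasurableSpace Ω] (μ : Measure Ω) (A : Set Ω) : Prop :=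
  MeasurableSet A ∧ 0 < μ A ∧ ∀ B ⊆ A, MeasurableSet B → μ B = 0 ∨ μ (A \ B) = 0

/-- `X` has a dense subset with fewer than `κ` points. -/
def DensityLT.{u} (κ : Cardinal.{u}) (X : Type u) [TopologicalSpace X] : Prop :=
  ∃ D : Set X, Dense D ∧ Cardinal.mk D < κ

/-- `E` has finite positive measure, contains no atom, and for every measurable `F ⊆ E` of positive
measure the space `L¹(μ|F)` has density character at least `κ`. -/
def Thick.{u} (κ : Cardinal.{u}) {Ω : Type u} [MeasurableSpace Ω] (μ : Measure Ω)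
    (E : Set Ω) : Prop :=
  MeasurableSet E ∧ 0 < μ E ∧ μ E < ∞ ∧ (∀ B ⊆ E, ¬ Atom μ B) ∧
    ∀ F ⊆ E, MeasurableSet F → 0 < μ F → ¬ DensityLT κ (Lp ℝ 1 (μ.restrict F))

/-- `𝓢` consists of sets of finite measure, and every `κ`-thick set meets a member of `𝓢` in a set of
positive measure. -/
def Meets.{u} (κ : Cardinal.{u}) {Ω : Type u} [MeasurableSpace Ω] (μ : Measure Ω)
    (𝓢 : Set (Set Ω)) : Prop :=
  (∀ S ∈ 𝓢, MeasurableSet S ∧ μ S < ∞) ∧ ∀ E, Thick κ μ E → ∃ S ∈ 𝓢, 0 < μ (E ∩ S)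

/-- The condition at `κ`. -/
def ConditionAt.{u} (κ : Cardinal.{u}) {Ω : Type u} [MeasurableSpace Ω] (μ : Measure Ω) : Prop :=
  (∀ E, ¬ Thick κ μ E) ∨ ∀ 𝓢 : Set (Set Ω), Meets κ μ 𝓢 → 2 ^ κ ≤ Cardinal.mk 𝓢

/-- The Banach space `X` over `𝕜` is isomorphic to the dual of a Banach space over `𝕜`. -/
def IsoToDual.{u} (𝕜 : Type) [RCLike 𝕜] (X : Type u) [NormedAddCommGroup X] [NormedSpace 𝕜 X] :
    Prop :=
  ∃ (Z : Type u) (_ : NormedAddCommGroup Z) (_ : NormedSpace 𝕜 Z) (_ : CompleteSpace Z),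
    Nonempty (X ≃L[𝕜] StrongDual 𝕜 Z)

/-- Martin's axiom for `ℵ₁` dense sets. -/
def MartinAxiom : Prop := ∀ (P : Type) [PartialOrder P] [Nonempty P],
    (∀ S : Set P, (∀ p ∈ S, ∀ q ∈ S, p ≠ q → ¬ ∃ r, r ≤ p ∧ r ≤ q) → S.Countable) →
    ∀ 𝓓 : Set (Set P), Cardinal.mk 𝓓 ≤ Cardinal.aleph 1 → (∀ D ∈ 𝓓, ∀ p, ∃ q ∈ D, q ≤ p) →
    ∃ G : Set P, G.Nonempty ∧ (∀ p ∈ G, ∀ q, p ≤ q → q ∈ G) ∧
      (∀ p ∈ G, ∀ q ∈ G, ∃ r ∈ G, r ≤ p ∧ r ≤ q) ∧ ∀ D ∈ 𝓓, (D ∩ G).Nonempty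

/-- The continuum hypothesis. -/
def ContinuumHypothesis : Prop := Cardinal.aleph.{0} 1 = Cardinal.continuum

theorem martin_of_for (h : Pool.Agent.W684.FM.MartinFor Pool.Agent.W684.FM.Om1) :
    MartinAxiom := by
  intro P _ _ hP 𝓓 h𝓓 hD
  obtain ⟨G, g1, g2, g3, g4⟩ := Pool.Agent.W684.FM.martinFor_om1_iff.1 h P
    (fun A hA => hP A hA) 𝓓 h𝓓 (fun D hDm => hD D hDm)
  exact ⟨G, g1, g2, g3, fun D hDm => by rw [inter_comm]; exact g4 D hDm⟩

/-- **The measures `μ` for which `L¹(μ)` is isomorphic to a dual Banach space.**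

(1), (2): in ZFC the condition at all infinite cardinals except `ℵ₁` is necessary, and the
condition at all infinite cardinals is sufficient.  (3) Under Martin's axiom for `ℵ₁` dense sets the
condition at `ℵ₁` is necessary as well.  (4) Under the continuum hypothesis the condition at `ℵ₁` is
not needed for the sufficiency.  (5) In ZFC there is a measure that satisfies the condition at all
infinite cardinals except `ℵ₁`; under the continuum hypothesis its `L¹` is isomorphic to a dual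
space, and under Martin's axiom for `ℵ₁` dense sets it is not.  (6), (7): both hypotheses can be
forced, below every condition and preserving `ω₁`. -/
theorem result.{u} :
    (∀ (Ω : Type u) [MeasurableSpace Ω] (μ : Measure Ω),
      (IsoToDual ℝ (Lp ℝ 1 μ) ∨ IsoToDual ℂ (Lp ℂ 1 μ)) →
      ∀ κ : Cardinal.{u}, Cardinal.aleph0 ≤ κ → κ ≠ Cardinal.aleph 1 → ConditionAt κ μ) ∧
    (∀ (Ω : Type u) [MeasurableSpace Ω] (μ : Measure Ω),
      (∀ κ : Cardinal.{u}, Cardinal.aleph0 ≤ κ → ConditionAt κ μ) →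
      IsoToDual ℝ (Lp ℝ 1 μ) ∧ IsoToDual ℂ (Lp ℂ 1 μ)) ∧
    (MartinAxiom → ∀ (Ω : Type u) [MeasurableSpace Ω] (μ : Measure Ω),
      (IsoToDual ℝ (Lp ℝ 1 μ) ∨ IsoToDual ℂ (Lp ℂ 1 μ)) → ConditionAt (Cardinal.aleph 1) μ) ∧
    (ContinuumHypothesis → ∀ (Ω : Type u) [MeasurableSpace Ω] (μ : Measure Ω),
      (∀ κ : Cardinal.{u}, Cardinal.aleph0 ≤ κ → κ ≠ Cardinal.aleph 1 → ConditionAt κ μ) →
      IsoToDual ℝ (Lp ℝ 1 μ) ∧ IsoToDual ℂ (Lp ℂ 1 μ)) ∧
    (∃ (Ω : Type) (_ : MeasurableSpace Ω) (μ : Measure Ω),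
      (∀ κ : Cardinal.{0}, Cardinal.aleph0 ≤ κ → κ ≠ Cardinal.aleph 1 → ConditionAt κ μ) ∧
      ¬ ConditionAt (Cardinal.aleph 1) μ ∧
      (ContinuumHypothesis → IsoToDual ℝ (Lp ℝ 1 μ) ∧ IsoToDual ℂ (Lp ℂ 1 μ)) ∧
      (Pool.Agent.W684.FM.MartinFor Pool.Agent.W684.FM.Om1 →
        ¬ IsoToDual ℝ (Lp ℝ 1 μ) ∧ ¬ IsoToDual ℂ (Lp ℂ 1 μ))) ∧
    (∃ (P : Type) (_ : Preorder P), Nonempty P ∧ ∀ p : P,
      p ∈ Pool.Agent.Helper292.ForceCH.OmegaOnePreserved P ∧
      p ∈ Pool.Agent.Helper292.ForceCH.CHHolds P) ∧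
    (∃ (P : Type) (_ : Preorder P), Nonempty P ∧ ∀ p : P,
      p ∈ Pool.Agent.W684.FM.OmegaOnePreserved P ∧
      p ∈ Pool.Agent.W684.FM.MartinHolds P Pool.Agent.W684.FM.Om1) := by
  have h3 : MartinAxiom → ∀ (Ω : Type u) [MeasurableSpace Ω] (μ : Measure Ω),
      (IsoToDual ℝ (Lp ℝ 1 μ) ∨ IsoToDual ℂ (Lp ℂ 1 μ)) → ConditionAt (Cardinal.aleph 1) μ :=
    fun hMA Ω _ μ hd => H624.LD.nec_MA hMA Ω μ hd
  have h3' : MartinAxiom → ∀ (Ω : Type) [MeasurableSpace Ω] (μ : Measure Ω),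
      (IsoToDual ℝ (Lp ℝ 1 μ) ∨ IsoToDual ℂ (Lp ℂ 1 μ)) → ConditionAt (Cardinal.aleph 1) μ :=
    fun hMA Ω _ μ hd => H624.LD.nec_MA hMA Ω μ hd
  refine ⟨fun Ω _ μ hd κ h1 h2 => H624.LD.nec_all Ω μ hd κ h1 h2,
    fun Ω _ μ hc => H624.LD.suf_all Ω μ hc, h3,
    fun hCH Ω _ μ hc => H624.LD.suf_CH ?_ Ω μ hc, ?_, Pool.Agent.Helper9CH.exists_ch, ?_⟩
  · have h := congrArg Cardinal.lift.{u} hCH
    rw [Cardinal.lift_aleph, Cardinal.lift_continuum] at h
    simpa using h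
  · obtain ⟨Ω, i, μ, h1, h2⟩ := H736.LD.sEX
    refine ⟨Ω, i, μ, h1, h2, fun hCH => H624.LD.suf_CH hCH Ω μ h1, fun hM => ?_⟩
    have hMA := martin_of_for hM
    exact ⟨fun h => h2 (h3' hMA Ω μ (Or.inl h)), fun h => h2 (h3' hMA Ω μ (Or.inr h))⟩
  · obtain ⟨P, i, h1, h2⟩ := Pool.Agent.W684.FM.exists_forcing Pool.Agent.W684.FM.Om1
    exact ⟨P, i, h1, fun p => ⟨(h2 p).2.1, (h2 p).2.2⟩⟩

end Pool.Agent.Results.MP_3844f5_an.AllMeasures
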